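import Pool.Agent.Y6.S.Stm
import Pool.Agent.Y6.S.Conv
import Pool.Agent.Y710.EP.PERT5

/-! Job SK-PERTX: the main modes and the tail energies of the full solution. -/

open Set Filter Topology

set_option autoImplicit false
set_option linter.all false

namespace Pool.Agent.Y665.SK

open Pool.Agent.Y5.D Pool.Agent.Y5.E
open Pool.Agent.Y5.F (Aq Awq Yk Wk)
open Pool.Agent.Y6.N (lin)
open Pool.Agent.Y5.S2 (Sq6 Rot2 Om Az Dis2 NSol2 Init2 S_DYN6)
open Pool.Agent.Y710.EP
open Pool.Agent.Y8.EP (Sq5)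
open Pool.Agent.Y6.S

variable {J : Type} {g : J → ℕ} {κ μ lam Λ M : ℝ} {L C ℓ : ℕ → ℝ} {B : ℕ → ℕ → ℝ}
  {c : Ix J → Ix J → Ix J → ℝ}

/-- Cauchy-Schwarz -/
theorem cs {I : Type} {u v : I → ℝ} (hu : Summable fun i => u i ^ 2)
    (hv : Summable fun i => v i ^ 2) :
    Summable (fun i => |u i| * |v i|) ∧
      ∑' i, |u i| * |v i| ≤ √(∑' i, u i ^ 2) * √(∑' i, v i ^ 2) := by
  have hb : ∀ s : Finset I, ∑ i ∈ s, |u i| * |v i| ≤ √(∑' i, u i ^ 2) * √(∑' i, v i ^ 2) := by
    intro s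
    have h1 := Finset.sum_mul_sq_le_sq_mul_sq s (fun i => |u i|) (fun i => |v i|)
    simp only [sq_abs] at h1
    have h2 : ∑ i ∈ s, u i ^ 2 ≤ ∑' i, u i ^ 2 := hu.sum_le_tsum s fun _ _ => sq_nonneg _
    have h3 : ∑ i ∈ s, v i ^ 2 ≤ ∑' i, v i ^ 2 := hv.sum_le_tsum s fun _ _ => sq_nonneg _
    rw [← Real.sqrt_mul (tsum_nonneg fun i => sq_nonneg _)]
    refine Real.le_sqrt_of_sq_le (h1.trans ?_)
    exact mul_le_mul h2 h3 (Finset.sum_nonneg fun _ _ => sq_nonneg _)
      (tsum_nonneg fun i => sq_nonneg _)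
  exact ⟨summable_of_sum_le (fun i => by positivity) hb,
    Real.tsum_le_of_sum_le (fun i => by positivity) hb⟩

/-- termwise differentiation of weighted sums of squares -/
theorem dsq (hK : Ker g Λ M L C B c) (hs : Sq5 κ μ lam Λ M L C ℓ B) {T : ℝ}
    {u u' : Ix J → ℝ → ℝ} (hu : RpU g L T u) (hu' : RpU g L T u')
    (hn : ∀ t ∈ Ico 0 T, Nice g L (fun a => u a t))
    (hd : ∀ a, ∀ t ∈ Ico 0 T, HasDerivWithinAt (u a) (u' a t) (Ico 0 T) t)
    (χ : Ix J → ℝ) (hχ : ∀ a, |χ a| ≤ 1) {t : ℝ} (ht : t ∈ Ico 0 T) :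
    HasDerivWithinAt (fun s => ∑' a, χ a * u a s ^ 2) (∑' a, χ a * (2 * u a t * u' a t))
      (Ico 0 T) t := by
  obtain ⟨T', hT1, hT2⟩ : ∃ T', t < T' ∧ T' < T :=
    ⟨(t + T) / 2, by linarith [ht.2], by linarith [ht.2]⟩
  obtain ⟨K, hK0⟩ := hu 0 T' hT2
  obtain ⟨K', hK4⟩ := hu' 4 T' hT2
  have hLp : ∀ n, 0 < L n := fun n => lt_of_lt_of_le one_pos (L_one hs n)
  have hsubI : Ico 0 T' ⊆ Icc 0 T' := Ico_subset_Icc_self
  have hsub : Ico 0 T' ⊆ Ico 0 T := Ico_subset_Ico_right hT2.le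
  have hmain := Pool.Agent.Y494.ND.hasDerivWithinAt_tsum' (I := Ix J) (S := Ico 0 T')
    (convex_Ico 0 T')
    (f := fun a τ => χ a * u a τ ^ 2)
    (f' := fun a τ => χ a * (2 * u a τ * u' a τ))
    (u := fun a => 2 * (K * K') * (L (gr g a) * (L (gr g a))⁻¹ ^ 4))
    ((wsum hK hs).mul_left _) (by
      intro a τ hτ
      have h1 := (((hd a τ (hsub hτ)).mono hsub).pow 2).const_mul (χ a)
      refine h1.congr_deriv ?_
      norm_num) (by
      intro a τ hτ
      have h1 := hK0 τ (hsubI hτ) a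
      have h2 := hK4 τ (hsubI hτ) a
      rw [pow_zero, one_mul] at h1
      have h3 := hLp (gr g a)
      have h4 : |u' a τ| ≤ K' * (L (gr g a))⁻¹ ^ 4 := by
        rw [inv_pow, ← div_eq_mul_inv, le_div_iff₀ (by positivity), mul_comm]
        exact h2
      have h5 : 0 ≤ K := (abs_nonneg _).trans h1
      have h6 : (0 : ℝ) ≤ K' * (L (gr g a))⁻¹ ^ 4 := (abs_nonneg _).trans h4
      have h7 : |u a τ| * |u' a τ| ≤ K * (K' * (L (gr g a))⁻¹ ^ 4) :=
        mul_le_mul h1 h4 (abs_nonneg _) h5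
      have h8 := L_one hs (gr g a)
      have h9 : K * (K' * (L (gr g a))⁻¹ ^ 4) ≤
          L (gr g a) * (K * (K' * (L (gr g a))⁻¹ ^ 4)) :=
        le_mul_of_one_le_left (mul_nonneg h5 h6) h8
      rw [abs_mul]
      refine (mul_le_of_le_one_left (abs_nonneg _) (hχ a)).trans ?_
      rw [abs_mul, abs_mul, abs_two]
      calc 2 * |u a τ| * |u' a τ| = 2 * (|u a τ| * |u' a τ|) := by ring
        _ ≤ 2 * (L (gr g a) * (K * (K' * (L (gr g a))⁻¹ ^ 4))) := by linarith
        _ = _ := by ring) (by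
      intro τ hτ
      refine Summable.of_norm_bounded ((hn τ (hsub hτ)).sq hs) fun a => ?_
      rw [norm_mul, Real.norm_eq_abs, Real.norm_eq_abs, abs_of_nonneg (sq_nonneg (u a τ))]
      exact mul_le_of_le_one_left (sq_nonneg _) (hχ a)) (t := t) ⟨ht.1, hT1⟩
  refine hmain.mono_of_mem_nhdsWithin ?_
  have h7 : Ico 0 T ∩ Iio T' ∈ 𝓝[Ico 0 T] t :=
    inter_mem_nhdsWithin _ (Iio_mem_nhds hT1)
  refine mem_of_superset h7 ?_
  rintro s ⟨hs1, hs2⟩
  exact ⟨hs1.1, hs2⟩

theorem rpU_add (hL : ∀ n, 0 ≤ L n) {T : ℝ} {u v : Ix J → ℝ → ℝ} (hu : RpU g L T u)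
    (hv : RpU g L T v) : RpU g L T (fun i t => u i t + v i t) := by
  intro k T' hT'
  obtain ⟨K1, h1⟩ := hu k T' hT'
  obtain ⟨K2, h2⟩ := hv k T' hT'
  refine ⟨K1 + K2, fun t ht a => ?_⟩
  have h3 : L (gr g a) ^ k * |u a t + v a t| ≤ L (gr g a) ^ k * (|u a t| + |v a t|) :=
    mul_le_mul_of_nonneg_left (abs_add_le _ _) (pow_nonneg (hL _) _)
  have h4 := h1 t ht a
  have h5 := h2 t ht a
  rw [mul_add] at h3
  linarith

theorem rpU_neg {T : ℝ} {u : Ix J → ℝ → ℝ} (hu : RpU g L T u) :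
    RpU g L T (fun i t => -u i t) := by
  intro k T' hT'
  obtain ⟨K1, h1⟩ := hu k T' hT'
  refine ⟨K1, fun t ht a => ?_⟩
  rw [abs_neg]
  exact h1 t ht a

theorem om_bd (hs : Sq5 κ μ lam Λ M L C ℓ B) {Q : ℝ} (hQ : 0 < Q) (m : ℕ) :
    0 ≤ Om Q κ L (m / 2) ∧ Om Q κ L (m / 2) ≤ Q * L m := by
  have h1 := κp hs (2 * (m / 2))
  have h2 := L_nn hs (2 * (m / 2))
  have h3 : L (2 * (m / 2)) ≤ L m := L_mono hs (by omega)
  unfold Om
  refine ⟨mul_nonneg hQ.le (mul_nonneg h1.1 h2), mul_le_mul_of_nonneg_left ?_ hQ.le⟩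
  exact (mul_le_of_le_one_left h2 h1.2).trans h3

theorem rpU_Az (hs : Sq5 κ μ lam Λ M L C ℓ B) {σ : J → J} {τ : J → ℝ} (hR : Rot2 g σ τ)
    {Q : ℝ} (hQ : 0 < Q) {T : ℝ} {u : Ix J → ℝ → ℝ} (hu : RpU g L T u) :
    RpU g L T (fun i t => Az Q κ L g σ τ (fun a => u a t) i) := by
  intro k T' hT'
  obtain ⟨K1, h1⟩ := hu (k + 1) T' hT'
  refine ⟨Q * lam ^ (k + 1) * |K1|, fun t ht a => ?_⟩
  have hlam := lam_one hs
  cases a with
  | inl n =>
    show L n ^ k * |(0 : ℝ)| ≤ _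
    rw [abs_zero, mul_zero]
    positivity
  | inr j =>
    show L (g j) ^ k * |Om Q κ L (g j / 2) * τ j * u (Sum.inr (σ j)) t| ≤ _
    have h2 := h1 t ht (Sum.inr (σ j))
    have h2' : L (g (σ j)) ^ (k + 1) * |u (Sum.inr (σ j)) t| ≤ |K1| := h2.trans (le_abs_self _)
    obtain ⟨h3, h4⟩ := om_bd (κ := κ) hs hQ (g j)
    have h5 : |τ j| = 1 := by
      have := hR.unit j
      rw [← sq_abs] at this
      nlinarith [abs_nonneg (τ j)]
    have h6 : L (g j) ≤ lam * L (g (σ j)) := by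
      rw [← hs.L_succ]
      have := hR.grp j
      exact L_mono hs (by omega)
    have h7 := L_nn hs (g j)
    have h8 := L_nn hs (g (σ j))
    rw [abs_mul, abs_mul, h5, mul_one, abs_of_nonneg h3]
    calc L (g j) ^ k * (Om Q κ L (g j / 2) * |u (Sum.inr (σ j)) t|)
        ≤ L (g j) ^ k * (Q * L (g j) * |u (Sum.inr (σ j)) t|) := by gcongr
      _ = Q * (L (g j) ^ (k + 1) * |u (Sum.inr (σ j)) t|) := by ring
      _ ≤ Q * ((lam * L (g (σ j))) ^ (k + 1) * |u (Sum.inr (σ j)) t|) := by gcongr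
      _ = Q * lam ^ (k + 1) * (L (g (σ j)) ^ (k + 1) * |u (Sum.inr (σ j)) t|) := by ring
      _ ≤ Q * lam ^ (k + 1) * |K1| := by gcongr

/-- the involution of all modes -/
def σe {σ : J → J} (h : ∀ j, σ (σ j) = j) : Ix J ≃ Ix J where
  toFun := fun a => match a with
    | Sum.inl n => Sum.inl n
    | Sum.inr j => Sum.inr (σ j)
  invFun := fun a => match a with
    | Sum.inl n => Sum.inl n
    | Sum.inr j => Sum.inr (σ j)
  left_inv := fun a => by
    cases a with
    | inl n => rfl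
    | inr j => show Sum.inr (σ (σ j)) = _; rw [h]
  right_inv := fun a => by
    cases a with
    | inl n => rfl
    | inr j => show Sum.inr (σ (σ j)) = _; rw [h]

theorem summ_mul (hs : Sq5 κ μ lam Λ M L C ℓ B) {u v : Ix J → ℝ} (hu : Nice g L u) {K : ℝ}
    (hv : ∀ a, |v a| ≤ K) : Summable (fun a => u a * v a) := by
  refine Summable.of_norm_bounded ((hu.sum1 hs).mul_left K) fun a => ?_
  rw [Real.norm_eq_abs, abs_mul, mul_comm]
  exact mul_le_mul_of_nonneg_right (hv a) (abs_nonneg _)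

/-- the rotation term, cut at `m` -/
theorem rot_cut (hs : Sq5 κ μ lam Λ M L C ℓ B) {σ : J → J} {τ : J → ℝ} (hR : Rot2 g σ τ)
    {Q : ℝ} (hQ : 0 < Q) {z : Ix J → ℝ} (hz : Nice g L z) {K : ℝ}
    (hA : ∀ a, |Az Q κ L g σ τ z a| ≤ K) :
    (∀ G, ∑' a, Pu g (2 * G) z a * Az Q κ L g σ τ z a = 0) ∧
    (∀ G, ∑' a, Pu g (2 * G + 1) z a * Az Q κ L g σ τ z a ≤
      Om Q κ L G * (ww g z (2 * G) * ww g z (2 * G + 1))) := by
  let e : Ix J ≃ Ix J := σe hR.inv
  have hS : ∀ m, Summable (fun a => Pu g m z a * Az Q κ L g σ τ z a) := fun m =>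
    summ_mul hs (hz.pu hs m) hA
  have h2 : ∀ m, 2 * ∑' a, Pu g m z a * Az Q κ L g σ τ z a =
      ∑' a, (Pu g m z a * Az Q κ L g σ τ z a + Pu g m z (e a) * Az Q κ L g σ τ z (e a)) := by
    intro m
    have h3 : Summable (fun a => Pu g m z (e a) * Az Q κ L g σ τ z (e a)) :=
      (e.summable_iff (f := fun a => Pu g m z a * Az Q κ L g σ τ z a)).2 (hS m)
    rw [(hS m).tsum_add h3, e.tsum_eq (fun a => Pu g m z a * Az Q κ L g σ τ z a)]
    ring
  have hval : ∀ m j, Pu g m z (Sum.inr j) * Az Q κ L g σ τ z (Sum.inr j) +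
      Pu g m z (e (Sum.inr j)) * Az Q κ L g σ τ z (e (Sum.inr j)) =
      ((if m ≤ g j then (1 : ℝ) else 0) - (if m ≤ g (σ j) then 1 else 0)) *
        (Om Q κ L (g j / 2) * τ j * z (Sum.inr j) * z (Sum.inr (σ j))) := by
    intro m j
    show (if m ≤ g j then z (Sum.inr j) else 0) *
        (Om Q κ L (g j / 2) * τ j * z (Sum.inr (σ j))) +
      (if m ≤ g (σ j) then z (Sum.inr (σ j)) else 0) *
        (Om Q κ L (g (σ j) / 2) * τ (σ j) * z (Sum.inr (σ (σ j)))) = _
    rw [hR.grp, hR.skew, hR.inv]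
    split_ifs <;> ring
  constructor
  · intro G
    have h3 : 2 * ∑' a, Pu g (2 * G) z a * Az Q κ L g σ τ z a = 0 := by
      rw [h2, ← tsum_zero (α := ℝ) (β := Ix J)]
      refine tsum_congr fun a => ?_
      cases a with
      | inl n =>
        show Pu g (2 * G) z (Sum.inl n) * 0 + Pu g (2 * G) z (Sum.inl n) * 0 = (0 : ℝ)
        ring
      | inr j =>
        rw [hval]
        have h4 := hR.grp j
        have h5 : (2 * G ≤ g j) ↔ (2 * G ≤ g (σ j)) := by omega
        by_cases h6 : 2 * G ≤ g j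
        · rw [if_pos h6, if_pos (h5.1 h6)]
          ring
        · rw [if_neg h6, if_neg (fun h => h6 (h5.2 h))]
          ring
    linarith
  · intro G
    obtain ⟨c1, c2⟩ := cs (((hz.po hs).pg hs (2 * G)).sq hs)
      ((e.summable_iff (f := fun a => Pg g (2 * G + 1) (Po z) a ^ 2)).2
        (((hz.po hs).pg hs (2 * G + 1)).sq hs))
    obtain ⟨d1, d2⟩ := cs (((hz.po hs).pg hs (2 * G + 1)).sq hs)
      ((e.summable_iff (f := fun a => Pg g (2 * G) (Po z) a ^ 2)).2
        (((hz.po hs).pg hs (2 * G)).sq hs))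
    have hO : 0 ≤ Om Q κ L G := by
      have := (om_bd (κ := κ) hs hQ (2 * G)).1
      rwa [show 2 * G / 2 = G by omega] at this
    have c3 : √(∑' a, (Pg g (2 * G + 1) (Po z) (e a)) ^ 2) = ww g z (2 * G + 1) := by
      rw [e.tsum_eq (fun a => Pg g (2 * G + 1) (Po z) a ^ 2)]
      rfl
    have d3 : √(∑' a, (Pg g (2 * G) (Po z) (e a)) ^ 2) = ww g z (2 * G) := by
      rw [e.tsum_eq (fun a => Pg g (2 * G) (Po z) a ^ 2)]
      rfl
    have c4 : ∑' a, |Pg g (2 * G) (Po z) a| * |Pg g (2 * G + 1) (Po z) (e a)| ≤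
        ww g z (2 * G) * ww g z (2 * G + 1) := by
      rw [← c3]
      exact c2
    have d4 : ∑' a, |Pg g (2 * G + 1) (Po z) a| * |Pg g (2 * G) (Po z) (e a)| ≤
        ww g z (2 * G + 1) * ww g z (2 * G) := by
      rw [← d3]
      exact d2
    have h3 : Summable (fun a => Pu g (2 * G + 1) z a * Az Q κ L g σ τ z a +
        Pu g (2 * G + 1) z (e a) * Az Q κ L g σ τ z (e a)) :=
      (hS _).add ((e.summable_iff (f := fun a =>
        Pu g (2 * G + 1) z a * Az Q κ L g σ τ z a)).2 (hS _))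
    have h4 := h3.tsum_le_tsum (g := fun a => Om Q κ L G *
      (|Pg g (2 * G) (Po z) a| * |Pg g (2 * G + 1) (Po z) (e a)| +
        |Pg g (2 * G + 1) (Po z) a| * |Pg g (2 * G) (Po z) (e a)|)) (fun a => ?_)
      ((c1.add d1).mul_left _)
    · rw [tsum_mul_left, c1.tsum_add d1, ← h2] at h4
      have h5 := mul_le_mul_of_nonneg_left (add_le_add c4 d4) hO
      nlinarith
    · cases a with
      | inl n =>
        show Pu g (2 * G + 1) z (Sum.inl n) * 0 + Pu g (2 * G + 1) z (Sum.inl n) * 0 ≤ _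
        rw [mul_zero, add_zero]
        positivity
      | inr j =>
        rw [hval]
        show _ ≤ Om Q κ L G * (|if g j = 2 * G then z (Sum.inr j) else 0| *
          |if g (σ j) = 2 * G + 1 then z (Sum.inr (σ j)) else 0| +
          |if g j = 2 * G + 1 then z (Sum.inr j) else 0| *
          |if g (σ j) = 2 * G then z (Sum.inr (σ j)) else 0|)
        have h4 := hR.grp j
        have h5 : |τ j| = 1 := by
          have := hR.unit j
          rw [← sq_abs] at this
          nlinarith [abs_nonneg (τ j)]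
        by_cases h6 : 2 * G + 1 ≤ g j
        · by_cases h7 : 2 * G + 1 ≤ g (σ j)
          · rw [if_pos h6, if_pos h7, sub_self, zero_mul]
            positivity
          · have e1 : g (σ j) = 2 * G := by omega
            have e2 : g j = 2 * G + 1 := by omega
            have e3 : g j / 2 = G := by omega
            rw [if_pos h6, if_neg h7, sub_zero, one_mul, e3, if_pos e1, if_pos e2,
              if_neg (by omega : ¬ g j = 2 * G), abs_zero, zero_mul, zero_add]
            calc Om Q κ L G * τ j * z (Sum.inr j) * z (Sum.inr (σ j))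
                ≤ |Om Q κ L G * τ j * z (Sum.inr j) * z (Sum.inr (σ j))| := le_abs_self _
              _ = _ := by
                rw [abs_mul, abs_mul, abs_mul, h5, abs_of_nonneg hO]
                ring
        · by_cases h7 : 2 * G + 1 ≤ g (σ j)
          · have e1 : g (σ j) = 2 * G + 1 := by omega
            have e2 : g j = 2 * G := by omega
            have e3 : g j / 2 = G := by omega
            rw [if_neg h6, if_pos h7, zero_sub, e3, if_pos e1, if_pos e2,
              if_neg (by omega : ¬ g j = 2 * G + 1), abs_zero, zero_mul, add_zero]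
            calc -1 * (Om Q κ L G * τ j * z (Sum.inr j) * z (Sum.inr (σ j)))
                ≤ |-1 * (Om Q κ L G * τ j * z (Sum.inr j) * z (Sum.inr (σ j)))| := le_abs_self _
              _ = _ := by
                rw [abs_mul, abs_mul, abs_mul, abs_mul, h5, abs_of_nonneg hO, abs_neg, abs_one]
                ring
          · rw [if_neg h6, if_neg h7, sub_self, zero_mul]
            positivity

theorem t_PERTXA : Pool.Agent.Y6.S.S_PERTXA := by
  classical
  intro _ hRAP _ hXST J g σ τ κ μ lam Λ M a D₁ L C ℓ B D c hK h6 hR hD ha Q A0 T z x w hQ hz hi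
    hx hw
  have hs := sq65 h6
  obtain ⟨r1, r2, r3, -, -, -, -, r8, r9, -⟩ := hRAP J g σ τ κ μ lam Λ M a D₁ L C ℓ B D c hK h6
    hR hD
  have hU := r3 T Q z hz
  have hUb := r8 T z z hU hU
  have hUl := r9 T z hU
  have hUA := rpU_Az (κ := κ) hs hR hQ hU
  have hRp : ∀ t ∈ Ico 0 T, Rp g L (fun i => z i t) := r2 T z hU
  have hn : ∀ t ∈ Ico 0 T, Nice g L (fun a => z a t) := fun t ht => r1 _ (hRp t ht)
  have hXS : ∀ t ∈ Ico 0 T, _ := fun t ht =>
    hXST J g κ μ lam Λ M a D₁ L C ℓ B D c hK h6 hD ha (fun i => z i t) (hRp t ht)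
  have hbd : ∀ (u : Ix J → ℝ → ℝ), RpU g L T u → ∀ t ∈ Ico 0 T, ∃ K, ∀ a, |u a t| ≤ K := by
    intro u hu t ht
    obtain ⟨K, h1⟩ := hu 0 t ht.2
    refine ⟨K, fun a => ?_⟩
    have h2 := h1 t ⟨ht.1, le_rfl⟩ a
    rwa [pow_zero, one_mul] at h2
  subst hx
  subst hw
  -- derivative of weighted sums of squares
  have hder : ∀ (χ : Ix J → ℝ), (∀ a, |χ a| ≤ 1) → ∀ t ∈ Ico 0 T,
      HasDerivWithinAt (fun s => ∑' a, χ a * z a s ^ 2)
        (∑' b, χ b * (2 * z b t * (Az Q κ L g σ τ (fun a => z a t) b - lin D (fun a => z a t) b +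
          bl c (fun a => z a t) (fun a => z a t) b))) (Ico 0 T) t := by
    intro χ hχ t ht
    refine dsq (u' := fun b s => Az Q κ L g σ τ (fun a => z a s) b - lin D (fun a => z a s) b +
      bl c (fun a => z a s) (fun a => z a s) b) hK hs hU ?_ hn (fun b s hs' => hz.deriv b s hs')
      χ hχ ht
    have h1 := rpU_add (L_nn hs) (rpU_add (L_nn hs) hUA (rpU_neg hUl)) hUb
    intro k T' hT'
    obtain ⟨K, h2⟩ := h1 k T' hT'
    refine ⟨K, fun t ht a => ?_⟩
    have h3 := h2 t ht a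
    beta_reduce at h3 ⊢
    rw [← sub_eq_add_neg] at h3
    exact h3
  -- the value of the derivative of the tail energies
  have hval : ∀ m, ∀ t ∈ Ico 0 T,
      ∑' b, χu g m b * (2 * z b t * (Az Q κ L g σ τ (fun a => z a t) b -
        lin D (fun a => z a t) b + bl c (fun a => z a t) (fun a => z a t) b)) =
      2 * (∑' b, Pu g m (fun a => z a t) b * Az Q κ L g σ τ (fun a => z a t) b) +
      (2 * tl c (Pu g m (fun a => z a t)) (fun a => z a t) (fun a => z a t) -
        2 * ∑' b, Pu g m (fun a => z a t) b * lin D (fun a => z a t) b) := by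
    intro m t ht
    have hnt := hn t ht
    obtain ⟨K1, k1⟩ := hbd _ hUA t ht
    obtain ⟨K2, k2⟩ := hbd _ hUl t ht
    have s1 := summ_mul hs (hnt.pu hs m) k1
    have s2 := summ_mul hs (hnt.pu hs m) k2
    obtain ⟨s3, s4⟩ := tl_bl hK hs (hnt.pu hs m) hnt hnt
    rw [← s4, ← tsum_mul_left, ← tsum_mul_left, ← tsum_mul_left,
      ← Summable.tsum_sub (s3.mul_left 2) (s2.mul_left 2),
      ← Summable.tsum_add (s1.mul_left 2) ((s3.mul_left 2).sub (s2.mul_left 2))]
    refine tsum_congr fun b => ?_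
    have e : χu g m b * z b t = Pu g m (fun a => z a t) b := by
      have := congrFun (χu_mul (g := g) m (fun a => z a t)) b
      exact this
    rw [← e]
    ring
  have hYd : ∀ m, ∀ t ∈ Ico 0 T, HasDerivWithinAt (Yt (fun n => z (Sum.inl n)) (wz g z) m)
      (2 * (∑' b, Pu g m (fun a => z a t) b * Az Q κ L g σ τ (fun a => z a t) b) +
      (2 * tl c (Pu g m (fun a => z a t)) (fun a => z a t) (fun a => z a t) -
        2 * ∑' b, Pu g m (fun a => z a t) b * lin D (fun a => z a t) b)) (Ico 0 T) t := by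
    intro m t ht
    have h := hder (χu g m) (χu_le m) t ht
    rw [hval m t ht] at h
    refine h.congr (fun s hs' => ?_) ?_
    · rw [χu_sq]
      exact Yt_eq hs (hn s hs') m
    · rw [χu_sq]
      exact Yt_eq hs (hn t ht) m
  have hP0 : ∀ t, Pu g 0 (fun a => z a t) = fun a => z a t := by
    intro t
    funext a
    exact if_pos (by omega)
  have hY0 : ∀ t ∈ Ico 0 T, HasDerivWithinAt (Yt (fun n => z (Sum.inl n)) (wz g z) 0)
      (-(2 * ∑' b, z b t * lin D (fun a => z a t) b)) (Ico 0 T) t := by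
    intro t ht
    obtain ⟨K1, k1⟩ := hbd _ hUA t ht
    have h := hYd 0 t ht
    have h3 := (rot_cut hs hR hQ (hn t ht) k1).1 0
    rw [Nat.mul_zero] at h3
    rw [h3, hP0, tl_self hK] at h
    refine h.congr_deriv ?_
    ring
  have hDnn : ∀ t ∈ Ico 0 T, 0 ≤ ∑' b, z b t * lin D (fun a => z a t) b := fun t ht =>
    (hXS t ht).2.1
  refine ⟨fun n t => bl c (fun a => z a t) (fun a => z a t) (Sum.inl n) -
    lin D (fun a => z a t) (Sum.inl n) - vf3 L C ℓ B (fun m => z (Sum.inl m) t) n,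
    ?_, ?_, ?_, ?_, ?_, ?_, ?_, ?_⟩
  · intro n t ht
    refine (hz.deriv (Sum.inl n) t ht).congr_deriv ?_
    show (0 : ℝ) - lin D (fun a => z a t) (Sum.inl n) +
      bl c (fun a => z a t) (fun a => z a t) (Sum.inl n) = _
    ring
  · intro n t ht
    have hnt := hn t ht
    refine ((hXS t ht).1 n).trans (le_of_eq ?_)
    rw [At_eq, Aw_eq, Uw_eq, loc_eq, Yt_eq hs hnt, Yt_eq hs hnt, Wt_eq hs hnt,
      Real.sqrt_sq (nm_nn _), Real.sqrt_sq (nm_nn _), Real.sqrt_sq (nm_nn _)]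
  · intro n t ht
    rw [wz_eq]; exact ww_nn _ _
  · intro n
    have h1 : ContinuousOn (fun s => ∑' a, χw g n a * z a s ^ 2) (Ico 0 T) := fun t ht =>
      (hder (χw g n) (χw_le n) t ht).continuousWithinAt
    refine (h1.sqrt).congr fun t ht => ?_
    show wz g z n t = √(∑' a, χw g n a * z a t ^ 2)
    rw [χw_sq n (fun a => z a t), wz_eq, Real.sqrt_sq (ww_nn _ _)]
  · intro t ht
    refine ⟨_, hY0 t ht, ?_⟩
    have := hDnn t ht
    linarith
  · intro n t ht
    have hnt := hn t ht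
    refine ⟨_, hYd (n + 1) t ht, ?_⟩
    obtain ⟨K1, k1⟩ := hbd _ hUA t ht
    have h3 := rot_cut hs hR hQ hnt k1
    have h4 := (hXS t ht).2.2 n
    have h5 : ∑' b, Pu g (n + 1) (fun a => z a t) b * Az Q κ L g σ τ (fun a => z a t) b ≤
        (if n % 2 = 0 then Q * (κ ^ n * L n) * (wz g z n t * wz g z (n + 1) t) else 0) := by
      split_ifs with hp
      · obtain ⟨G, rfl⟩ : ∃ G, n = 2 * G := ⟨n / 2, by omega⟩
        rw [wz_eq, wz_eq]
        exact h3.2 G
      · obtain ⟨G, rfl⟩ : ∃ G, n = 2 * G + 1 := ⟨n / 2, by omega⟩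
        have h6 := h3.1 (G + 1)
        rw [show 2 * (G + 1) = 2 * G + 1 + 1 by ring] at h6
        exact h6.le
    rw [Yt_eq hs hnt, Wt_eq hs hnt, Real.sqrt_sq (nm_nn _), Real.sqrt_sq (nm_nn _), Ut_eq, Uw_eq,
      loc_eq, At_eq, wz_eq (g := g) z n t]
    rw [wz_eq (g := g) z n t] at h5
    simp only [ee] at h4 ⊢
    linarith
  · intro k₀ T' hT'
    obtain ⟨K, hK10⟩ := hz.rapid k₀ T' hT'
    refine ⟨√K + √K, fun t ht n => ?_⟩
    obtain ⟨h1, h2⟩ := hK10 t ht
    have hLn := L_nn hs n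
    have htT : t ∈ Ico 0 T := ⟨ht.1, ht.2.trans_lt hT'⟩
    rw [wz_eq, mul_add]
    refine add_le_add ?_ ?_
    · have h3 : (rI L g (Sum.inl n) ^ k₀ * z (Sum.inl n) t) ^ 2 ≤ K :=
        (h1.le_tsum (Sum.inl n) fun _ _ => sq_nonneg _).trans h2
      have h4 := Real.abs_le_sqrt h3
      rw [abs_mul, abs_of_nonneg (by show 0 ≤ L n ^ k₀; positivity)] at h4
      exact h4
    · have h3 : (L n ^ k₀ * ww g (fun a => z a t) n) ^ 2 ≤ K := by
        refine le_trans ?_ h2
        unfold ww nk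
        rw [mul_pow, nm_sq, ← tsum_mul_left]
        refine (((((hn t htT).po hs).pg hs n).sq hs).mul_left _).tsum_le_tsum (fun a => ?_) h1
        cases a with
        | inl k =>
          have e1 : Pg g n (Po (fun a => z a t)) (Sum.inl k) = 0 := by simp [Pg, Po]
          rw [e1]
          have := sq_nonneg (rI L g (Sum.inl k) ^ k₀ * z (Sum.inl k) t)
          simpa using this
        | inr j =>
          show (L n ^ k₀) ^ 2 * (if g j = n then z (Sum.inr j) t else 0) ^ 2 ≤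
            (L (g j) ^ k₀ * z (Sum.inr j) t) ^ 2
          split_ifs with hj
          · rw [hj, mul_pow]
          · have := sq_nonneg (L (g j) ^ k₀ * z (Sum.inr j) t)
            simpa using this
      have h4 := Real.abs_le_sqrt h3
      rwa [abs_of_nonneg (mul_nonneg (pow_nonneg hLn _) (ww_nn _ _))] at h4
  · intro t ht
    have h1 : MonotoneOn (fun s => -Yt (fun n => z (Sum.inl n)) (wz g z) 0 s) (Ico 0 T) := by
      refine Pool.Agent.Y494.ND.mono_of
        (f' := fun s => 2 * ∑' b, z b s * lin D (fun a => z a s) b) ?_ ?_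
      · intro s hs'
        have := (hY0 s hs').neg
        rw [neg_neg] at this
        exact this
      · intro s hs'
        exact mul_nonneg zero_le_two (hDnn s hs')
    have h0 : (0 : ℝ) ∈ Ico 0 T := ⟨le_rfl, ht.1.trans_lt ht.2⟩
    have h2 := h1 h0 ht ht.1
    have h3 : Yt (fun n => z (Sum.inl n)) (wz g z) 0 0 = A0 ^ 2 := by
      rw [Yt_eq hs (hn 0 h0), hP0, nm_sq, tsum_eq_single (Sum.inl 0)]
      · rw [hi.1]
      · intro a ha
        cases a with
        | inl n =>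
          cases n with
          | zero => exact absurd rfl ha
          | succ n => rw [hi.2.1 n]; norm_num
        | inr w => rw [hi.2.2 w]; norm_num
    simp only at h2
    rw [h3] at h2
    linarith

end Pool.Agent.Y665.SK
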